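import Pool.Agent.Helper49_HM.MirS

/-!
# Module GG of the squad HM: continuity of the angle on the windows
-/

set_option autoImplicit false

namespace Pool.Agent.HM.H7

open Complex Set Topology Pool.Agent.HM

noncomputable section

theorem cr_eq (z w : ℂ) : cr z w = z.re * w.im - z.im * w.re := by
  unfold cr
  simp [Complex.mul_im]
  ring

theorem cr_cont : Continuous fun X : JS => ((cr X.1 X.2.2.1 : ℝ) : ℂ) := by
  unfold cr
  fun_prop

theorem cr_cont' : Continuous fun X : JS => ((cr X.2.1 X.2.2.2 : ℝ) : ℂ) := by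
  unfold cr
  fun_prop

theorem gg_cont : GgStmt := by
  refine ⟨1 / 100, by norm_num, fun μ hμ => ?_⟩
  have h0 := abs_lt.1 (hμ 0)
  have h1 := abs_lt.1 (hμ 1)
  have h2 := abs_lt.1 (hμ 2)
  set a := μ 0
  set b := μ 1
  set c := μ 2
  have ha : 99 / 100 < a ∧ a < 101 / 100 := ⟨by linarith [h0.1], by linarith [h0.2]⟩
  have hbb : 99 / 100 < b ∧ b < 101 / 100 := ⟨by linarith [h1.1], by linarith [h1.2]⟩
  have hc : 99 / 100 < c ∧ c < 101 / 100 := ⟨by linarith [h2.1], by linarith [h2.2]⟩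
  have ha0 : 0 < a := by linarith
  have hb0 : 0 < b := by linarith
  have hc0 : 0 < c := by linarith
  rintro ⟨ρ, lam, ρ', ν⟩ ⟨⟨⟨hρ, hA, hB⟩, hE, hMu⟩, hX2, hR, hL, hg, hEO⟩
  simp only at hρ hA hB hX2 hR
  have hM : mT μ = a + b + c := rfl
  have hMpos : 0 < mT μ := by rw [hM]; positivity
  have hR0 : 0 < ‖lam‖ := by linarith
  have hlam : lam ≠ 0 := norm_pos_iff.1 hR0
  have hρ0 : 0 < ‖ρ‖ := norm_pos_iff.2 hρ
  set C : ℝ := cr ρ ρ' with hC
  set D : ℝ := cr lam ν with hD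
  -- bounds
  have hCb : |C| ≤ 102 / 1000 := by
    have h3 : LL (ρ, lam, ρ', ν) = C / 2 := rfl
    rw [h3, abs_div, abs_of_pos (by norm_num : (0 : ℝ) < 2)] at hL
    linarith
  have hC2 : C ^ 2 ≤ 11 / 1000 := by
    rw [← sq_abs]
    nlinarith [abs_nonneg C]
  have hν : ‖ν‖ ^ 2 ≤ 3 / 10 := by
    have h3 : EO μ (ρ, lam, ρ', ν) = ‖ν‖ ^ 2 / 3 - 2 * mT μ / (3 * ‖lam‖) := rfl
    rw [h3] at hEO
    have h4 := (abs_le.1 hEO).2
    have h5 : 2 * mT μ / (3 * ‖lam‖) ≤ 2 * (303 / 100) / (3 * 23) := by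
      apply div_le_div₀ (by norm_num) _ (by norm_num) (by linarith)
      rw [hM]; linarith
    norm_num at h5 h4 ⊢
    linarith
  have hν1 : ‖ν‖ ≤ 6 / 10 := by
    nlinarith [norm_nonneg ν]
  -- the Kepler energy of the binary
  have hhb : -3 ≤ hb μ (ρ, lam, ρ', ν) := by
    have h3 : JE μ (ρ, lam, ρ', ν) = k1 μ * hb μ (ρ, lam, ρ', ν) + k2 μ / 2 * ‖ν‖ ^ 2 -
        a * c / ‖vA μ ρ lam‖ - b * c / ‖vB μ ρ lam‖ := by
      show k1 μ / 2 * ‖ρ'‖ ^ 2 + k2 μ / 2 * ‖ν‖ ^ 2 - a * b / ‖ρ‖ - a * c / ‖vA μ ρ lam‖ -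
        b * c / ‖vB μ ρ lam‖ = k1 μ * (‖ρ'‖ ^ 2 / 2 - (a + b) / ‖ρ‖) + k2 μ / 2 * ‖ν‖ ^ 2 -
        a * c / ‖vA μ ρ lam‖ - b * c / ‖vB μ ρ lam‖
      have h4 : k1 μ = a * b / (a + b) := rfl
      have h5 : a + b ≠ 0 := by positivity
      rw [h4]
      field_simp
      ring
    rw [h3] at hE
    have h4 : 0 ≤ a * c / ‖vA μ ρ lam‖ := by positivity
    have h5 : 0 ≤ b * c / ‖vB μ ρ lam‖ := by positivity
    have h6 : k2 μ ≤ 7 / 10 := by
      show c * (a + b) / (a + b + c) ≤ _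
      rw [div_le_iff₀ (by positivity)]
      nlinarith
    have h6' : 0 ≤ k2 μ := by
      show 0 ≤ c * (a + b) / (a + b + c)
      positivity
    have h7 : 49 / 100 ≤ k1 μ := by
      show _ ≤ a * b / (a + b)
      rw [le_div_iff₀ (by positivity)]
      nlinarith
    by_contra hcon
    push Not at hcon
    have h8 : k2 μ / 2 * ‖ν‖ ^ 2 ≤ 7 / 20 * (3 / 10) := by
      apply mul_le_mul (by linarith) hν (by positivity) (by norm_num)
    nlinarith
  -- the Laplace vector of the binary does not vanish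
  have hl : lrl μ (ρ, lam, ρ', ν) ≠ 0 := by
    intro hl
    have h3 : -(I * (C : ℂ) * ρ') / ((a + b : ℝ) : ℂ) - ρ / (‖ρ‖ : ℂ) = 0 := hl
    have hab : 0 < a + b := by positivity
    have habC : ((a + b : ℝ) : ℂ) ≠ 0 := ofReal_ne_zero.2 hab.ne'
    have hρC : (‖ρ‖ : ℂ) ≠ 0 := ofReal_ne_zero.2 hρ0.ne'
    have h4 : -(I * (C : ℂ) * ρ') / ((a + b : ℝ) : ℂ) = ρ / (‖ρ‖ : ℂ) := sub_eq_zero.1 h3
    -- norms
    have h5 : |C| * ‖ρ'‖ = a + b := by
      have h6 := congrArg norm h4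
      rw [norm_div, norm_neg, norm_mul, norm_mul, norm_I, one_mul, norm_real, norm_real, norm_div,
        norm_real, norm_norm, div_self hρ0.ne', Real.norm_eq_abs, Real.norm_eq_abs,
        abs_of_pos hab, div_eq_one_iff_eq hab.ne'] at h6
      exact h6
    have h7 : C ^ 2 = (a + b) * ‖ρ‖ := by
      have h8 : -(I * (C : ℂ) * ρ') * (‖ρ‖ : ℂ) = ρ * ((a + b : ℝ) : ℂ) := by
        rw [div_eq_div_iff habC hρC] at h4
        exact h4
      have h9 : ((starRingEnd ℂ) ρ * (-(I * (C : ℂ) * ρ') * (‖ρ‖ : ℂ))).re =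
          ((starRingEnd ℂ) ρ * (ρ * ((a + b : ℝ) : ℂ))).re := by rw [h8]
      have h10 : ((starRingEnd ℂ) ρ * (-(I * (C : ℂ) * ρ') * (‖ρ‖ : ℂ))).re = C * C * ‖ρ‖ := by
        have h11 : C = ρ.re * ρ'.im - ρ.im * ρ'.re := cr_eq _ _
        simp only [mul_re, mul_im, neg_re, neg_im, I_re, I_im, ofReal_re, ofReal_im, conj_re,
          conj_im]
        rw [show C * C * ‖ρ‖ = C * (ρ.re * ρ'.im - ρ.im * ρ'.re) * ‖ρ‖ by rw [← h11]]
        ring
      have h12 : ((starRingEnd ℂ) ρ * (ρ * ((a + b : ℝ) : ℂ))).re = ‖ρ‖ ^ 2 * (a + b) := by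
        rw [← mul_assoc, mul_comm ((starRingEnd ℂ) ρ) ρ, Complex.mul_conj, ← ofReal_mul, ofReal_re,
          Complex.normSq_eq_norm_sq]
      rw [h10, h12] at h9
      have h13 : ‖ρ‖ * (C ^ 2 - (a + b) * ‖ρ‖) = 0 := by
        linear_combination h9
      rcases mul_eq_zero.1 h13 with h14 | h14
      · exact absurd h14 hρ0.ne'
      · linarith
    have h8 : hb μ (ρ, lam, ρ', ν) = ‖ρ'‖ ^ 2 / 2 - (a + b) / ‖ρ‖ := rfl
    have h9 : C ^ 2 * ‖ρ'‖ ^ 2 = (a + b) ^ 2 := by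
      rw [← h5, mul_pow, sq_abs]
    have h10 : C ^ 2 * hb μ (ρ, lam, ρ', ν) = -((a + b) ^ 2 / 2) := by
      rw [h8, mul_sub]
      have h11 : C ^ 2 * ((a + b) / ‖ρ‖) = (a + b) ^ 2 := by
        rw [h7]
        field_simp
      rw [h11]
      linarith
    nlinarith [sq_nonneg C]
  have hk : D = -(k1 μ / k2 μ) * C := by
    have h3 : k1 μ * C + k2 μ * D = 0 := hMu
    have h6' : 0 < k2 μ := by
      show 0 < c * (a + b) / (a + b + c)
      positivity
    field_simp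
    linarith
  have hDb : |D| ≤ 1 := by
    rw [hk, abs_mul, abs_neg]
    have h3 : |k1 μ / k2 μ| ≤ 1 := by
      have h4 : k1 μ / k2 μ = (a * b / (a + b)) / (c * (a + b) / (a + b + c)) := rfl
      rw [h4, abs_of_pos (by positivity), div_div_div_eq, div_le_one (by positivity)]
      nlinarith [mul_pos ha0 hb0, mul_pos ha0 hc0, mul_pos hb0 hc0, mul_pos (mul_pos ha0 hb0) hc0]
    calc |k1 μ / k2 μ| * |C| ≤ 1 * (102 / 1000) :=
          mul_le_mul h3 hCb (abs_nonneg _) (by norm_num)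
      _ ≤ 1 := by norm_num
  have ho : outm μ (ρ, lam, ρ', ν) ≠ 0 := by
    intro ho
    have h3 : lam / (‖lam‖ : ℂ) + I * (D : ℂ) * ν / (mT μ : ℂ) = 0 := ho
    have h4 := congrArg norm (eq_neg_of_add_eq_zero_left h3)
    rw [norm_div, norm_real, norm_norm, div_self hR0.ne', norm_neg, norm_div, norm_mul, norm_mul,
      norm_I, one_mul, norm_real, norm_real, Real.norm_eq_abs, Real.norm_eq_abs,
      abs_of_pos hMpos, eq_div_iff hMpos.ne', one_mul] at h4
    have h5 : |D| * ‖ν‖ ≤ 1 * (6 / 10) := mul_le_mul hDb hν1 (norm_nonneg _) (by norm_num)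
    rw [hM] at h4
    linarith
  -- continuity
  have hlc : ContinuousAt (lrl μ) (ρ, lam, ρ', ν) := by
    unfold lrl
    apply ContinuousAt.sub
    · apply Continuous.continuousAt
      exact ((continuous_const.mul cr_cont).mul (by fun_prop)).neg.div_const _
    · apply ContinuousAt.div
      · fun_prop
      · fun_prop
      · exact ofReal_ne_zero.2 hρ0.ne'
  have hoc : ContinuousAt (outm μ) (ρ, lam, ρ', ν) := by
    unfold outm
    apply ContinuousAt.add
    · apply ContinuousAt.div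
      · fun_prop
      · fun_prop
      · exact ofReal_ne_zero.2 hR0.ne'
    · apply Continuous.continuousAt
      exact ((continuous_const.mul cr_cont').mul (by fun_prop)).div_const _
  have hz : lrl μ (ρ, lam, ρ', ν) * (starRingEnd ℂ) (outm μ (ρ, lam, ρ', ν)) *
      exp (-(I * gref)) ≠ 0 :=
    mul_ne_zero (mul_ne_zero hl ((map_ne_zero _).2 ho)) (exp_ne_zero _)
  have hslit : lrl μ (ρ, lam, ρ', ν) * (starRingEnd ℂ) (outm μ (ρ, lam, ρ', ν)) *
      exp (-(I * gref)) ∈ slitPlane := by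
    rw [mem_slitPlane_iff_arg]
    refine ⟨fun h3 => ?_, hz⟩
    have h4 : gg μ (ρ, lam, ρ', ν) - gref = Real.pi := by
      rw [← h3]
      unfold gg
      ring
    rw [h4, abs_of_pos Real.pi_pos] at hg
    linarith [Real.pi_gt_three]
  apply ContinuousAt.continuousWithinAt
  unfold gg
  apply ContinuousAt.add continuousAt_const
  apply ContinuousAt.comp (f := fun X : JS => lrl μ X * (starRingEnd ℂ) (outm μ X) *
    exp (-(I * gref))) (g := arg)
  · exact continuousAt_arg hslit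
  · exact (hlc.mul (continuous_conj.continuousAt.comp hoc)).mul continuousAt_const

end

end Pool.Agent.HM.H7
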