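import Pool.Agent.Helper49_HM.LC

/-!
# Module N2N of the squad HM: from the numerics to the near passages
-/

set_option autoImplicit false

namespace Pool.Agent.HM.H7

open Complex Set Topology Pool.Agent.HM

noncomputable section

/-- crossing data do not depend on the parametrization -/
theorem core_reparam (z w : ℝ → ℂ) (ψ : ℝ → ℝ) (hψ : ContinuousOn ψ (Icc 0 1))
    (hm : StrictMonoOn ψ (Icc 0 1)) (h0 : ψ 0 = 0) (h1 : ψ 1 = 1)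
    (hw : ∀ τ ∈ Icc (0 : ℝ) 1, w τ = z (ψ τ)) (hz : CoreData z) : CoreData w := by
  obtain ⟨t, ht0, htm, ht6, a0, a1, a2, a3, a4, a5, a6, b0, b1, b2, b3, b4, b5, b6, b7⟩ := hz
  have hsurj : ∀ i, ∃ s ∈ Icc (0 : ℝ) 1, ψ s = t i := by
    intro i
    have h2 : t i ∈ Icc (ψ 0) (ψ 1) := by
      rw [h0, h1]
      exact ⟨ht0.le.trans (htm.monotone (Fin.zero_le i)), (htm.monotone (Fin.le_last i)).trans ht6.le⟩
    obtain ⟨s, hs, hst⟩ := intermediate_value_Icc zero_le_one hψ h2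
    exact ⟨s, hs, hst⟩
  choose r hr hrt using hsurj
  have h00 : (0 : ℝ) ∈ Icc (0 : ℝ) 1 := ⟨le_rfl, zero_le_one⟩
  have h11 : (1 : ℝ) ∈ Icc (0 : ℝ) 1 := ⟨zero_le_one, le_rfl⟩
  have hpt : ∀ i, w (r i) = z (t i) := fun i => by rw [hw _ (hr i), hrt i]
  have hmem : ∀ i j, ∀ τ ∈ Icc (r i) (r j), τ ∈ Icc (0 : ℝ) 1 ∧ ψ τ ∈ Icc (t i) (t j) := by
    intro i j τ hτ
    have h2 : τ ∈ Icc (0 : ℝ) 1 := ⟨(hr i).1.trans hτ.1, hτ.2.trans (hr j).2⟩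
    refine ⟨h2, ?_, ?_⟩
    · rw [← hrt i]
      exact hm.monotoneOn (hr i) h2 hτ.1
    · rw [← hrt j]
      exact hm.monotoneOn h2 (hr j) hτ.2
  refine ⟨r, ?_, ?_, ?_, ?_, ?_, ?_, ?_, ?_, ?_, ?_, ?_, ?_, ?_, ?_, ?_, ?_, ?_, ?_⟩
  · by_contra hcon
    have h2 : r 0 = 0 := le_antisymm (not_lt.1 hcon) (hr 0).1
    have h3 := hrt 0
    rw [h2, h0] at h3
    exact absurd ht0 (by rw [← h3]; exact lt_irrefl _)
  · intro i j hij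
    exact (hm.lt_iff_lt (hr i) (hr j)).1 (by rw [hrt, hrt]; exact htm hij)
  · by_contra hcon
    have h2 : r 6 = 1 := le_antisymm (hr 6).2 (not_lt.1 hcon)
    have h3 := hrt 6
    rw [h2, h1] at h3
    exact absurd ht6 (by rw [← h3]; exact lt_irrefl _)
  · show 0 < (w (r 0)).im
    rw [hpt]; exact a0
  · show (w (r 1)).im < 0
    rw [hpt]; exact a1
  · show 0 < (w (r 2)).im
    rw [hpt]; exact a2
  · show (w (r 3)).im < 0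
    rw [hpt]; exact a3
  · show 0 < (w (r 4)).im
    rw [hpt]; exact a4
  · show (w (r 5)).im < 0
    rw [hpt]; exact a5
  · show 0 < (w (r 6)).im
    rw [hpt]; exact a6
  · intro τ hτ
    have h2 : τ ∈ Icc (0 : ℝ) 1 := ⟨hτ.1, hτ.2.trans (hr 0).2⟩
    show Opn 2 (w τ)
    rw [hw τ h2]
    refine b0 _ ⟨?_, ?_⟩
    · rw [← h0]
      exact hm.monotoneOn h00 h2 hτ.1
    · rw [← hrt 0]
      exact hm.monotoneOn h2 (hr 0) hτ.2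
  · intro τ hτ
    show Opn 1 (w τ)
    rw [hw τ (hmem _ _ τ hτ).1]
    exact b1 _ (hmem _ _ τ hτ).2
  · intro τ hτ
    show Opn 0 (w τ)
    rw [hw τ (hmem _ _ τ hτ).1]
    exact b2 _ (hmem _ _ τ hτ).2
  · intro τ hτ
    show Opn 2 (w τ)
    rw [hw τ (hmem _ _ τ hτ).1]
    exact b3 _ (hmem _ _ τ hτ).2
  · intro τ hτ
    show Opn 2 (w τ)
    rw [hw τ (hmem _ _ τ hτ).1]
    exact b4 _ (hmem _ _ τ hτ).2
  · intro τ hτ
    show Opn 0 (w τ)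
    rw [hw τ (hmem _ _ τ hτ).1]
    exact b5 _ (hmem _ _ τ hτ).2
  · intro τ hτ
    show Opn 1 (w τ)
    rw [hw τ (hmem _ _ τ hτ).1]
    exact b6 _ (hmem _ _ τ hτ).2
  · intro τ hτ
    have h2 : τ ∈ Icc (0 : ℝ) 1 := ⟨(hr 6).1.trans hτ.1, hτ.2⟩
    show Zone (w τ)
    rw [hw τ h2]
    refine b7 _ ⟨?_, ?_⟩
    · rw [← hrt 6]
      exact hm.monotoneOn (hr 6) h2 hτ.1
    · rw [← h1]
      exact hm.monotoneOn h2 h11 hτ.2

theorem pos_of_near {ε : ℝ} (hε : ε ≤ 1) {m : Fin 3 → ℝ} (hm : Near1 ε m) : ∀ i, 0 < m i := by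
  intro i
  have := abs_lt.1 (hm i)
  linarith [this.1]

theorem near_mono {ε δ : ℝ} (h : ε ≤ δ) {m : Fin 3 → ℝ} (hm : Near1 ε m) : Near1 δ m :=
  fun i => (hm i).trans_le h

theorem exm_pos {m : Fin 3 → ℝ} (hm : ∀ i, 0 < m i) : ∀ i, 0 < exm m i := by
  intro i
  fin_cases i
  · exact hm 0
  · exact hm 2
  · exact hm 1

theorem swm_pos {m : Fin 3 → ℝ} (hm : ∀ i, 0 < m i) : ∀ i, 0 < swm m i := by
  intro i
  fin_cases i
  · exact hm 2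
  · exact hm 1
  · exact hm 0

theorem exj_cont (m : Fin 3 → ℝ) : Continuous (exj m) := by
  unfold exj exv vA
  fun_prop

theorem sw_cont (m : Fin 3 → ℝ) : Continuous (sw m) := by
  unfold sw swv vA vB
  fun_prop

theorem zyx_cont (m : Fin 3 → ℝ) : Continuous (zyx m) :=
  (exj_cont _).comp (sw_cont _)

/-- the composed change of time -/
theorem glue (c S₁ S₂ : ℝ) (hc : c ∈ Ioo (0 : ℝ) 1) (hS₁ : 0 < S₁) (hS₂ : 0 < S₂) (φ₁ φ₂ : ℝ → ℝ)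
    (h₁c : ContinuousOn φ₁ (Icc 0 1)) (h₂c : ContinuousOn φ₂ (Icc 0 1))
    (h₁m : StrictMonoOn φ₁ (Icc 0 1)) (h₂m : StrictMonoOn φ₂ (Icc 0 1))
    (h₁0 : φ₁ 0 = 0) (h₂0 : φ₂ 0 = 0) (h₁1 : φ₁ 1 = S₁) (h₂1 : φ₂ 1 = S₂) :
    ∃ ψ : ℝ → ℝ, ContinuousOn ψ (Icc 0 1) ∧ StrictMonoOn ψ (Icc 0 1) ∧ ψ 0 = 0 ∧ ψ 1 = 1 ∧
      (∀ τ ∈ Icc (0 : ℝ) 1, (S₁ + S₂) * ψ (c * τ) = φ₁ τ) ∧
      (∀ τ ∈ Icc (0 : ℝ) 1, (S₁ + S₂) * ψ (c + (1 - c) * τ) = S₁ + φ₂ τ) := by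
  have hS : 0 < S₁ + S₂ := add_pos hS₁ hS₂
  have hc0 := hc.1
  have hc1 : 0 < 1 - c := by linarith [hc.2]
  have h00 : (0 : ℝ) ∈ Icc (0 : ℝ) 1 := ⟨le_rfl, zero_le_one⟩
  have h11 : (1 : ℝ) ∈ Icc (0 : ℝ) 1 := ⟨zero_le_one, le_rfl⟩
  have hA : ∀ τ, τ ∈ Icc 0 c → τ / c ∈ Icc (0 : ℝ) 1 := fun τ hτ =>
    ⟨div_nonneg hτ.1 hc0.le, (div_le_one hc0).2 hτ.2⟩
  have hB : ∀ τ, τ ∈ Icc c 1 → (τ - c) / (1 - c) ∈ Icc (0 : ℝ) 1 := fun τ hτ =>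
    ⟨div_nonneg (sub_nonneg.2 hτ.1) hc1.le, (div_le_one hc1).2 (by linarith [hτ.2])⟩
  let ψ₁ : ℝ → ℝ := fun τ => φ₁ (τ / c) / (S₁ + S₂)
  let ψ₂ : ℝ → ℝ := fun τ => (S₁ + φ₂ ((τ - c) / (1 - c))) / (S₁ + S₂)
  have e₁ : ψ₁ c = S₁ / (S₁ + S₂) := by
    show φ₁ (c / c) / _ = _
    rw [div_self hc0.ne', h₁1]
  have e₂ : ψ₂ c = S₁ / (S₁ + S₂) := by
    show (S₁ + φ₂ ((c - c) / _)) / _ = _
    rw [sub_self, zero_div, h₂0, add_zero]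
  have c₁ : ContinuousOn ψ₁ (Icc 0 c) := by
    apply ContinuousOn.div_const
    exact h₁c.comp (continuousOn_id.div_const c) hA
  have c₂ : ContinuousOn ψ₂ (Icc c 1) := by
    apply ContinuousOn.div_const
    apply ContinuousOn.add continuousOn_const
    exact h₂c.comp ((continuousOn_id.sub continuousOn_const).div_const (1 - c)) hB
  have m₁ : StrictMonoOn ψ₁ (Icc 0 c) := by
    intro a ha b hb hab
    exact div_lt_div_of_pos_right (h₁m (hA a ha) (hA b hb) (div_lt_div_of_pos_right hab hc0)) hS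
  have m₂ : StrictMonoOn ψ₂ (Icc c 1) := by
    intro a ha b hb hab
    refine div_lt_div_of_pos_right (by
      linarith [h₂m (hB a ha) (hB b hb) (div_lt_div_of_pos_right (by linarith) hc1)]) hS
  let ψ : ℝ → ℝ := fun τ => if τ ≤ c then ψ₁ τ else ψ₂ τ
  have f₁ : ∀ τ, τ ≤ c → ψ τ = ψ₁ τ := fun τ h => if_pos h
  have f₂ : ∀ τ, c ≤ τ → ψ τ = ψ₂ τ := by
    intro τ h
    rcases h.eq_or_lt with h | h
    · rw [f₁ τ h.ge, ← h, e₁, e₂]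
    · exact if_neg (not_le.2 h)
  have hun : Icc (0 : ℝ) 1 = Icc 0 c ∪ Icc c 1 := (Icc_union_Icc_eq_Icc hc0.le hc.2.le).symm
  refine ⟨ψ, ?_, ?_, ?_, ?_, ?_, ?_⟩
  · rw [hun]
    apply ContinuousOn.union_of_isClosed _ _ isClosed_Icc isClosed_Icc
    · exact c₁.congr fun τ h => f₁ τ h.2
    · exact c₂.congr fun τ h => f₂ τ h.1
  · intro a ha b hb hab
    rcases le_total b c with h1 | h1
    · rw [f₁ a (hab.le.trans h1), f₁ b h1]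
      exact m₁ ⟨ha.1, hab.le.trans h1⟩ ⟨hb.1, h1⟩ hab
    · rcases le_total c a with h2 | h2
      · rw [f₂ a h2, f₂ b h1]
        exact m₂ ⟨h2, ha.2⟩ ⟨h1, hb.2⟩ hab
      · rw [f₁ a h2, f₂ b h1]
        have h3 := m₁.monotoneOn ⟨ha.1, h2⟩ ⟨hc0.le, le_rfl⟩ h2
        have h4 := m₂.monotoneOn ⟨le_rfl, hc.2.le⟩ ⟨h1, hb.2⟩ h1
        rcases h2.eq_or_lt with h5 | h5
        · have h6 : c < b := h5 ▸ hab
          have h7 := m₂ ⟨le_rfl, hc.2.le⟩ ⟨h1, hb.2⟩ h6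
          linarith
        · have h7 := m₁ ⟨ha.1, h2⟩ ⟨hc0.le, le_rfl⟩ h5
          linarith
  · rw [f₁ 0 hc0.le]
    show φ₁ (0 / c) / _ = 0
    rw [zero_div, h₁0, zero_div]
  · rw [f₂ 1 hc.2.le]
    show (S₁ + φ₂ ((1 - c) / (1 - c))) / (S₁ + S₂) = 1
    rw [div_self hc1.ne', h₂1, div_self hS.ne']
  · intro τ hτ
    rw [f₁ _ (mul_le_of_le_one_right hc0.le hτ.2)]
    show (S₁ + S₂) * (φ₁ (c * τ / c) / (S₁ + S₂)) = _
    rw [mul_div_cancel_left₀ _ hc0.ne', mul_div_cancel₀ _ hS.ne']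
  · intro τ hτ
    rw [f₂ _ (le_add_of_nonneg_right (mul_nonneg hc1.le hτ.1))]
    show (S₁ + S₂) * ((S₁ + φ₂ ((c + (1 - c) * τ - c) / (1 - c))) / (S₁ + S₂)) = _
    rw [add_sub_cancel_left, mul_div_cancel_left₀ _ hc1.ne', mul_div_cancel₀ _ hS.ne']

theorem n2n : N2NStmt := by
  intro hNewt hLch hCat hInit hArc
  obtain ⟨ε₀, hε₀, hI⟩ := hInit
  obtain ⟨-, -, hlev⟩ := hArc
  have h00 : (0 : ℝ) ∈ Icc (0 : ℝ) 1 := ⟨le_rfl, zero_le_one⟩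
  have h11 : (1 : ℝ) ∈ Icc (0 : ℝ) 1 := ⟨zero_le_one, le_rfl⟩
  constructor
  · rintro ⟨ε₁, hε₁, hN⟩
    refine ⟨min 1 (min ε₀ ε₁), lt_min one_pos (lt_min hε₀ hε₁), fun m hm => ?_⟩
    have hpos := pos_of_near (min_le_left _ _) hm
    have hm0 : Near1 ε₀ m := near_mono ((min_le_right _ _).trans (min_le_left _ _)) hm
    have hm1 : Near1 ε₁ m := near_mono ((min_le_right _ _).trans (min_le_right _ _)) hm
    obtain ⟨S, x, hx, hx0, hE⟩ := hN m hm1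
    obtain ⟨dur, P, hP, φ, hφ⟩ := hNewt m hpos S x hx (fun ξ hξ => by
      rw [hx0 ξ hξ]
      exact (hI m hm0 ξ hξ).1)
    have hP0 : ∀ ξ ∈ box4, P ξ 0 = initA m ξ := by
      intro ξ hξ
      obtain ⟨-, -, h3, -, h5⟩ := hφ ξ hξ
      rw [h5 0 h00, h3, hx0 ξ hξ]
    have hP1 : ∀ ξ ∈ box4, P ξ 1 = toJ (x ξ S) := by
      intro ξ hξ
      obtain ⟨-, -, -, h4, h5⟩ := hφ ξ hξ
      rw [h5 1 h11, h4]
    refine ⟨dur, P, hP.contD, hP.cont, hP.pos, hP.arc, hP0, ?_, ?_, ?_, ?_, ?_, ?_, ?_⟩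
    · intro ξ hξ
      refine hlev m hpos _ _ (hP.arc ξ hξ) ?_ 1 h11
      rw [hP0 ξ hξ]
      exact (hI m hm0 ξ hξ).1
    · intro ξ hξ
      rw [hP1 ξ hξ]
      exact hE.hR ξ hξ
    · intro ξ hξ
      rw [hP1 ξ hξ]
      exact hE.hX ξ hξ
    · intro ξ hξ
      rw [hP1 ξ hξ]
      exact hE.hS ξ hξ
    · intro ξ hξ
      rw [hP1 ξ hξ]
      exact hE.hu ξ hξ
    · intro ξ hξ
      rw [hP1 ξ hξ]
      exact hE.hs ξ hξ
    · intro ξ hξ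
      rw [hP1 ξ hξ]
      exact hE.hE ξ hξ
  · rintro ⟨ε₁, hε₁, hN⟩
    refine ⟨min 1 (min ε₀ ε₁), lt_min one_pos (lt_min hε₀ hε₁), fun m hm => ?_⟩
    have hpos := pos_of_near (min_le_left _ _) hm
    have hm0 : Near1 ε₀ m := near_mono ((min_le_right _ _).trans (min_le_left _ _)) hm
    have hm1 : Near1 ε₁ m := near_mono ((min_le_right _ _).trans (min_le_right _ _)) hm
    obtain ⟨S₁, S₂, x₁, x₂, hx₁, hx₂, hx₁0, hx₂0, hE, hcore⟩ := hN m hm1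
    have hpe := exm_pos hpos
    have hps := swm_pos hpe
    obtain ⟨L1, -, L3, -, -, L6, -, L8⟩ := hLch m hpos
    obtain ⟨E1, -, -, E4, E5, -, E7, E8⟩ := hLch (exm m) hpe
    obtain ⟨-, W2, -, -, -, -, W7, -⟩ := hLch (swm (exm m)) hps
    have hinit0 : ∀ ξ ∈ box4, Lev (exm m) (initB0 (exm m) ξ) := by
      intro ξ hξ
      have h1 := L8 _ (hI m hm0 ξ hξ).2.1
      have h2 : exj m (initB m ξ) = initB0 (exm m) ξ := by
        have h3 := (hLch (exm m) hpe).2.2.2.2.2.1 (initB0 (exm m) ξ)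
        rw [L3] at h3
        exact h3
      rw [h2] at h1
      exact h1
    obtain ⟨dur₁, P₁, hP₁, φ₁, hφ₁⟩ := hNewt _ hps S₁ x₁ hx₁ (fun ξ hξ => by
      rw [hx₁0 ξ hξ]
      exact E7 _ (hinit0 ξ hξ))
    -- the first piece in the labels (x,z;y)
    have hQ₁ : NFam m dur₁ (fun ξ τ => zyx m (P₁ ξ τ)) := by
      refine ⟨hP₁.contD, (zyx_cont m).comp_continuousOn hP₁.cont, hP₁.pos, ?_⟩
      intro ξ hξ
      have h1 := W2 _ _ (hP₁.arc ξ hξ)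
      rw [E4] at h1
      have h2 := E1 _ _ h1
      rw [L3] at h2
      exact h2
    have hQ₁0 : ∀ ξ ∈ box4, zyx m (P₁ ξ 0) = initB m ξ := by
      intro ξ hξ
      obtain ⟨-, -, h3, -, h5⟩ := hφ₁ ξ hξ
      rw [h5 0 h00, h3, hx₁0 ξ hξ]
      show exj (exm m) (sw (swm (exm m)) (sw (exm m) (initB0 (exm m) ξ))) = _
      rw [E5]
      rfl
    have hQ₁1 : ∀ ξ ∈ box4, zyx m (P₁ ξ 1) = zyx m (toJ (x₁ ξ S₁)) := by
      intro ξ hξ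
      obtain ⟨-, -, -, h4, h5⟩ := hφ₁ ξ hξ
      rw [h5 1 h11, h4]
    obtain ⟨dur₂, P₂, hP₂, φ₂, hφ₂⟩ := hNewt m hpos S₂ x₂ hx₂ (fun ξ hξ => by
      rw [hx₂0 ξ hξ, ← hQ₁1 ξ hξ]
      refine hlev m hpos _ _ (hQ₁.arc ξ hξ) ?_ 1 h11
      show Lev m (zyx m (P₁ ξ 0))
      rw [hQ₁0 ξ hξ]
      exact (hI m hm0 ξ hξ).2.1)
    have hP₂0 : ∀ ξ ∈ box4, P₂ ξ 0 = toJ (x₂ ξ 0) := by
      intro ξ hξ
      obtain ⟨-, -, h3, -, h5⟩ := hφ₂ ξ hξ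
      rw [h5 0 h00, h3]
    have hP₂1 : ∀ ξ ∈ box4, P₂ ξ 1 = toJ (x₂ ξ S₂) := by
      intro ξ hξ
      obtain ⟨-, -, -, h4, h5⟩ := hφ₂ ξ hξ
      rw [h5 1 h11, h4]
    obtain ⟨dur, P, hP, c, hc⟩ := hCat m dur₁ dur₂ _ P₂ hQ₁ hP₂ (fun ξ hξ => by
      rw [hP₂0 ξ hξ, hx₂0 ξ hξ]
      exact hQ₁1 ξ hξ)
    have hP0 : ∀ ξ ∈ box4, P ξ 0 = initB m ξ := by
      intro ξ hξ
      have h1 := (hc ξ hξ).2.1 0 h00
      rw [mul_zero] at h1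
      rw [h1]
      exact hQ₁0 ξ hξ
    have hP1 : ∀ ξ ∈ box4, P ξ 1 = toJ (x₂ ξ S₂) := by
      intro ξ hξ
      have h1 := (hc ξ hξ).2.2 1 h11
      rw [mul_one, add_sub_cancel] at h1
      rw [h1]
      exact hP₂1 ξ hξ
    refine ⟨dur, P, ⟨hP.contD, hP.cont, hP.pos, hP.arc, hP0, ?_, ?_, ?_, ?_, ?_, ?_, ?_⟩, ?_⟩
    · intro ξ hξ
      refine hlev m hpos _ _ (hP.arc ξ hξ) ?_ 1 h11
      rw [hP0 ξ hξ]
      exact (hI m hm0 ξ hξ).2.1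
    · intro ξ hξ
      rw [hP1 ξ hξ]
      exact hE.hR ξ hξ
    · intro ξ hξ
      rw [hP1 ξ hξ]
      exact hE.hX ξ hξ
    · intro ξ hξ
      rw [hP1 ξ hξ]
      exact hE.hS ξ hξ
    · intro ξ hξ
      rw [hP1 ξ hξ]
      exact hE.hu ξ hξ
    · intro ξ hξ
      rw [hP1 ξ hξ]
      exact hE.hs ξ hξ
    · intro ξ hξ
      rw [hP1 ξ hξ]
      exact hE.hE ξ hξ
    · -- the crossing data
      have hz0 : (0 : Fin 4 → ℝ) ∈ box4 := by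
        constructor
        · intro i
          show (-1 : ℝ) ≤ 0
          norm_num
        · intro i
          show (0 : ℝ) ≤ 1
          norm_num
      obtain ⟨p1, p2, p3, p4, p5⟩ := hφ₁ 0 hz0
      obtain ⟨q1, q2, q3, q4, q5⟩ := hφ₂ 0 hz0
      obtain ⟨hc0, hc1, hc2⟩ := hc 0 hz0
      obtain ⟨ψ, g1, g2, g3, g4, g5, g6⟩ := glue (c 0) S₁ S₂ hc0 hx₁.pos hx₂.pos (φ₁ 0) (φ₂ 0)
        p1 q1 p2 q2 p3 q3 p4 q4
      refine core_reparam _ _ ψ g1 g2 g3 g4 ?_ hcore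
      intro τ hτ
      show zc m (P 0 τ) = catP S₁ S₂ (fun s => zc m (zyx m (toJ (x₁ 0 s))))
        (fun s => zc m (toJ (x₂ 0 s))) (ψ τ)
      rcases le_or_gt τ (c 0) with h1 | h1
      · obtain ⟨τ', hτ', rfl⟩ : ∃ τ' ∈ Icc (0 : ℝ) 1, c 0 * τ' = τ :=
          ⟨τ / c 0, ⟨div_nonneg hτ.1 hc0.1.le, (div_le_one hc0.1).2 h1⟩, mul_div_cancel₀ _ hc0.1.ne'⟩
        have h2 : φ₁ 0 τ' ≤ S₁ := by
          rw [← p4]
          exact p2.monotoneOn hτ' h11 hτ'.2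
        rw [hc1 τ' hτ', catP, g5 τ' hτ', if_pos h2]
        show zc m (zyx m (P₁ 0 τ')) = _
        rw [p5 τ' hτ']
      · have hc' : 0 < 1 - c 0 := by linarith [hc0.2]
        obtain ⟨τ', hτ', hτe⟩ : ∃ τ' ∈ Icc (0 : ℝ) 1, c 0 + (1 - c 0) * τ' = τ := by
          refine ⟨(τ - c 0) / (1 - c 0), ⟨div_nonneg (sub_nonneg.2 h1.le) hc'.le,
            (div_le_one hc').2 (by linarith [hτ.2])⟩, ?_⟩
          rw [mul_div_cancel₀ _ hc'.ne']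
          ring
        subst hτe
        have h3 : 0 < τ' := by
          by_contra hcon
          have h4 : τ' = 0 := le_antisymm (not_lt.1 hcon) hτ'.1
          rw [h4, mul_zero, add_zero] at h1
          exact lt_irrefl _ h1
        have h2 : ¬ (S₁ + φ₂ 0 τ' ≤ S₁) := by
          have h4 := q2 h00 hτ' h3
          rw [q3] at h4
          linarith
        rw [hc2 τ' hτ', catP, g6 τ' hτ', if_neg h2, q5 τ' hτ', add_sub_cancel_left]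

end

end Pool.Agent.HM.H7
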